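import Pool.Agent.NPC.Num

/-!
# Definitions for MP_3930bf_lc: variable matrices, the existential theory of the reals, and the
promise problem `GapMinRank`

Data are coded by bit strings through the codings `bits` of `Pool.Agent.NPC.Defs` (a datum is
coded by a binary tree, which is written in preorder; numbers are written in binary).
-/

namespace Pool.Agent.H606R2.MinRank

open Pool.Agent.NPC

/-! ### The existential theory of the reals -/

/-- Polynomials: expressions built from `0`, `1` and variables `y_0, y_1, ...` by `+` and `·`. -/
inductive Term : Type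
  | zero : Term
  | one : Term
  | var (n : ℕ) : Term
  | add (s t : Term) : Term
  | mul (s t : Term) : Term

/-- The value of a polynomial at a real point. -/
noncomputable def Term.eval (y : ℕ → ℝ) : Term → ℝ
  | zero => 0
  | one => 1
  | var n => y n
  | add s t => s.eval y + t.eval y
  | mul s t => s.eval y * t.eval y

/-- Quantifier-free formulas: Boolean combinations of equations and strict inequalities between
polynomials. -/
inductive Formula : Type
  | eq (s t : Term) : Formula
  | lt (s t : Term) : Formula
  | not (φ : Formula) : Formula
  | and (φ ψ : Formula) : Formula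
  | or (φ ψ : Formula) : Formula

/-- `φ` is true at the real point `y`. -/
def Formula.Holds (y : ℕ → ℝ) : Formula → Prop
  | eq s t => s.eval y = t.eval y
  | lt s t => s.eval y < t.eval y
  | not φ => ¬ φ.Holds y
  | and φ ψ => φ.Holds y ∧ ψ.Holds y
  | or φ ψ => φ.Holds y ∨ ψ.Holds y

/-- `ETR`: the sentence `∃ y_0 ∃ y_1 ⋯ φ(y)` is true in the reals.  (Only finitely many variables
occur in `φ`.)  The sentence is given by its quantifier-free part `φ`. -/
def ETR (φ : Formula) : Prop := ∃ y : ℕ → ℝ, φ.Holds y

/-- A polynomial written as a string of symbols, in postfix notation.  The symbols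
`0, 1, y_n, +, ·` are coded by the pairs `(0,0), (1,0), (2,n), (3,0), (4,0)`. -/
def Term.code : Term → List (ℕ × ℕ)
  | zero => [(0, 0)]
  | one => [(1, 0)]
  | var n => [(2, n)]
  | add s t => s.code ++ (t.code ++ [(3, 0)])
  | mul s t => s.code ++ (t.code ++ [(4, 0)])

/-- A formula written as a string of symbols, in postfix notation.  The symbols
`=, <, ¬, ∧, ∨` are coded by the pairs `(5,0), (6,0), (7,0), (8,0), (9,0)`. -/
def Formula.code : Formula → List (ℕ × ℕ)
  | eq s t => s.code ++ (t.code ++ [(5, 0)])
  | lt s t => s.code ++ (t.code ++ [(6, 0)])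
  | not φ => φ.code ++ [(7, 0)]
  | and φ ψ => φ.code ++ (ψ.code ++ [(8, 0)])
  | or φ ψ => φ.code ++ (ψ.code ++ [(9, 0)])

/-- A parser for postfix notation, used to prove that the coding is injective. -/
def parse : List (ℕ × ℕ) → List (Term ⊕ Formula) → List (Term ⊕ Formula)
  | [], st => st
  | (0, _) :: l, st => parse l (Sum.inl Term.zero :: st)
  | (1, _) :: l, st => parse l (Sum.inl Term.one :: st)
  | (2, n) :: l, st => parse l (Sum.inl (Term.var n) :: st)
  | (3, _) :: l, Sum.inl t :: Sum.inl s :: st => parse l (Sum.inl (Term.add s t) :: st)
  | (4, _) :: l, Sum.inl t :: Sum.inl s :: st => parse l (Sum.inl (Term.mul s t) :: st)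
  | (5, _) :: l, Sum.inl t :: Sum.inl s :: st => parse l (Sum.inr (Formula.eq s t) :: st)
  | (6, _) :: l, Sum.inl t :: Sum.inl s :: st => parse l (Sum.inr (Formula.lt s t) :: st)
  | (7, _) :: l, Sum.inr φ :: st => parse l (Sum.inr (Formula.not φ) :: st)
  | (8, _) :: l, Sum.inr ψ :: Sum.inr φ :: st => parse l (Sum.inr (Formula.and φ ψ) :: st)
  | (9, _) :: l, Sum.inr ψ :: Sum.inr φ :: st => parse l (Sum.inr (Formula.or φ ψ) :: st)
  | _, st => st

theorem parse_term (t : Term) : ∀ (l : List (ℕ × ℕ)) (st : List (Term ⊕ Formula)),
    parse (t.code ++ l) st = parse l (Sum.inl t :: st) := by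
  induction t with
  | zero => intro l st; simp [Term.code, parse]
  | one => intro l st; simp [Term.code, parse]
  | var n => intro l st; simp [Term.code, parse]
  | add s t ihs iht =>
    intro l st
    simp only [Term.code, List.append_assoc, ihs, iht]
    simp [parse]
  | mul s t ihs iht =>
    intro l st
    simp only [Term.code, List.append_assoc, ihs, iht]
    simp [parse]

theorem parse_formula (φ : Formula) : ∀ (l : List (ℕ × ℕ)) (st : List (Term ⊕ Formula)),
    parse (φ.code ++ l) st = parse l (Sum.inr φ :: st) := by
  induction φ with
  | eq s t =>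
    intro l st
    simp only [Formula.code, List.append_assoc, parse_term]
    simp [parse]
  | lt s t =>
    intro l st
    simp only [Formula.code, List.append_assoc, parse_term]
    simp [parse]
  | not φ ih =>
    intro l st
    simp only [Formula.code, List.append_assoc, ih]
    simp [parse]
  | and φ ψ ih ih' =>
    intro l st
    simp only [Formula.code, List.append_assoc, ih, ih']
    simp [parse]
  | or φ ψ ih ih' =>
    intro l st
    simp only [Formula.code, List.append_assoc, ih, ih']
    simp [parse]

theorem Formula.code_injective : Function.Injective Formula.code := by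
  intro φ ψ h
  have h1 := parse_formula φ [] []
  have h2 := parse_formula ψ [] []
  rw [List.append_nil] at h1 h2
  rw [h, h2] at h1
  simpa [parse] using h1.symm

/-- Sentences are coded through the string of symbols of their quantifier-free part. -/
instance : TEnc Formula := ⟨fun φ => toT φ.code, TEnc.inj.comp Formula.code_injective⟩

/-! ### Variable matrices -/

/-- An entry of a variable matrix: a rational constant or a variable `x_i`. -/
inductive Entry : Type
  | const (q : ℚ) : Entry
  | var (i : ℕ) : Entry

/-- The value of an entry when `a_i` is substituted for `x_i`. -/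
noncomputable def Entry.eval (a : ℕ → ℝ) : Entry → ℝ
  | const q => (q : ℝ)
  | var i => a i

/-- Entries are coded as elements of the disjoint union of `ℚ` and `ℕ`. -/
def Entry.toSum : Entry → ℚ ⊕ ℕ
  | const q => Sum.inl q
  | var i => Sum.inr i

instance : TEnc Entry := ⟨fun e => toT e.toSum, by
  refine TEnc.inj.comp ?_
  intro e e' h
  cases e <;> cases e' <;> simp [Entry.toSum] at h ⊢ <;> exact h⟩

/-- A variable matrix: a square matrix, given by the list of its rows, all of whose entries are
rational constants or variables.  A variable may occur in several entries. -/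
structure VarMatrix : Type where
  /-- the rows -/
  rows : List (List Entry)
  /-- the matrix is square -/
  square : ∀ r ∈ rows, r.length = rows.length

/-- Variable matrices are coded as lists of rows. -/
instance : TEnc VarMatrix := ⟨fun M => toT M.rows, by
  refine TEnc.inj.comp ?_
  rintro ⟨r, h⟩ ⟨r', h'⟩ e
  simpa using e⟩

/-- The real matrix `M(a)`. -/
noncomputable def VarMatrix.at (M : VarMatrix) (a : ℕ → ℝ) :
    Matrix (Fin M.rows.length) (Fin M.rows.length) ℝ :=
  Matrix.of fun i j =>
    ((M.rows[i.1])[j.1]'(by rw [M.square _ (List.getElem_mem _)]; exact j.2)).eval a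

/-- The minimum rank of a variable matrix over the reals. -/
noncomputable def VarMatrix.minRank (M : VarMatrix) : ℕ :=
  sInf {r | ∃ a : ℕ → ℝ, (M.at a).rank = r}

/-! ### Promise problems and hardness -/

/-- A promise problem about elements of `α`: the yes-instances and the no-instances. -/
structure Promise (α : Type) where
  /-- the yes-instances -/
  yes : α → Prop
  /-- the no-instances -/
  no : α → Prop

/-- `f` is computable in polynomial time (in Mathlib's sense) on the codes of data. -/
def PolyTimeMap {α β : Type} [TEnc α] [TEnc β] (f : α → β) : Prop :=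
  Nonempty (Turing.TM2ComputableInPolyTime (bits : α → List Bool) (bits : β → List Bool) f)

/-- A promise problem is `∃ℝ`-hard if `ETR` reduces to it: a polynomial-time computable map sends
true sentences to yes-instances and false sentences to no-instances. -/
def ExistsRHard {α : Type} [TEnc α] (Q : Promise α) : Prop :=
  ∃ f : Formula → α, PolyTimeMap f ∧ ∀ φ, (ETR φ → Q.yes (f φ)) ∧ (¬ ETR φ → Q.no (f φ))

/-- The promise problem `GapMinRank_ε`.  An instance is a variable matrix `M` together with an
integer `r`, where `r ≥ 1`; it is a yes-instance if `mr(M) ≤ r` and a no-instance if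
`mr(M) > (1 + ε) r`. -/
def GapMinRank (ε : ℝ) : Promise (VarMatrix × ℕ) where
  yes p := 1 ≤ p.2 ∧ p.1.minRank ≤ p.2
  no p := 1 ≤ p.2 ∧ (1 + ε) * (p.2 : ℝ) < (p.1.minRank : ℝ)

end Pool.Agent.H606R2.MinRank
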