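import Pool.Agent.H606R2.MinRank.Sys2

/-!
# The variable matrix of a system of elementary equations

The matrix has the block form `[[I, Y], [X, Z]]` with blocks of size `2`; the block `Z_{gh}` with
`g ≠ h` consists of new variables.  So the rank is `2` if all the matrices `Z_{gg} - X_g Y_g` vanish
and it is at least `4` if one of them is invertible.
-/

namespace Pool.Agent.H606R2.MinRank

open Pool.Agent.NPC

/-- Two by two blocks. -/
abbrev M2 : Type := (Entry × Entry) × (Entry × Entry)

/-- The entries of a block. -/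
def M2.get (m : M2) (i j : ℕ) : Entry :=
  if i = 0 then (if j = 0 then m.1.1 else m.1.2) else (if j = 0 then m.2.1 else m.2.2)

/-- Gadgets `(X, Y, Z)`. -/
abbrev Gad : Type := M2 × M2 × M2

/-- `x_v` -/
def ps (v : ℕ) : Entry := Entry.var (4 * v)

/-- `-x_v` -/
def ng (v : ℕ) : Entry := Entry.var (4 * v + 2)

/-- The constant `0`. -/
def c0 : Entry := Entry.const 0
/-- The constant `1`. -/
def c1 : Entry := Entry.const 1
/-- The constant `-1`. -/
def cm : Entry := Entry.const (-1)

/-- The gadgets of an equation. -/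
def gads (c : Con) : List Gad :=
  if c.1 = 0 then
    [(((c0, ng c.2.2.2), (ps c.2.2.2, c0)), ((c0, cm), (cm, c0)),
        ((ps c.2.2.2, c0), (c0, ng c.2.2.2))),
     (((ps c.2.1, c1), (ps c.2.2.1, cm)), ((c1, cm), (ps c.2.2.1, ps c.2.1)),
        ((ps c.2.2.2, c0), (c0, ng c.2.2.2)))]
  else if c.1 = 1 then
    [(((ps c.2.1, c0), (c0, ps c.2.1)), ((ps c.2.2.1, c0), (c0, ps c.2.2.1)),
        ((ps c.2.2.2, c0), (c0, ps c.2.2.2)))]
  else
    [(((c1, c0), (c0, c1)), ((c1, c0), (c0, c1)), ((ps c.2.1, c0), (c0, ps c.2.1)))]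

/-- A dummy block. -/
def m2z : M2 := ((c0, c0), (c0, c0))
/-- A dummy gadget. -/
def gdz : Gad := (m2z, m2z, m2z)

/-- The size of the matrix. -/
def dimOf (gs : List Gad) : ℕ := 2 * gs.length + 2

/-- The entries of the matrix. -/
def ent (gs : List Gad) (i j : ℕ) : Entry :=
  if i < 2 then
    (if j < 2 then (if i = j then c1 else c0)
      else (gs.getD (j / 2 - 1) gdz).2.1.get i (j % 2))
  else if j < 2 then (gs.getD (i / 2 - 1) gdz).1.get (i % 2) j
  else if i / 2 = j / 2 then (gs.getD (i / 2 - 1) gdz).2.2.get (i % 2) (j % 2)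
  else Entry.var (2 * (i * dimOf gs + j) + 1)

/-- The rows of the matrix. -/
def rowsOf (gs : List Gad) : List (List Entry) :=
  (List.range (dimOf gs)).map fun i => (List.range (dimOf gs)).map fun j => ent gs i j

/-- The matrix. -/
def matOf (gs : List Gad) : VarMatrix where
  rows := rowsOf gs
  square := by
    intro r hr
    unfold rowsOf at hr ⊢
    rw [List.mem_map] at hr
    obtain ⟨i, _, rfl⟩ := hr
    simp

theorem length_rows (gs : List Gad) : (matOf gs).rows.length = dimOf gs := by
  simp [matOf, rowsOf]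

theorem matOf_at (gs : List Gad) (a : ℕ → ℝ) (i j : Fin (matOf gs).rows.length) :
    (matOf gs).at a i j = (ent gs i j).eval a := by
  simp [VarMatrix.at, matOf, rowsOf]
  rfl

/-- Evaluation of blocks. -/
noncomputable def evM (a : ℕ → ℝ) (m : M2) : Matrix (Fin 2) (Fin 2) ℝ :=
  Matrix.of fun i j => (m.get i j).eval a

theorem ent_base (gs : List Gad) (a : ℕ → ℝ) {i j : ℕ} (hi : i < 2) (hj : j < 2) :
    (ent gs i j).eval a = if i = j then 1 else 0 := by
  unfold ent
  rw [if_pos hi, if_pos hj]
  split_ifs <;> simp [c1, c0, Entry.eval]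

theorem ent_Y (gs : List Gad) {i h t : ℕ} (hi : i < 2) (ht : t < 2) :
    ent gs i (2 * h + 2 + t) = (gs.getD h gdz).2.1.get i t := by
  unfold ent
  rw [if_pos hi, if_neg (by omega)]
  have e1 : (2 * h + 2 + t) / 2 - 1 = h := by omega
  have e2 : (2 * h + 2 + t) % 2 = t := by omega
  rw [e1, e2]

theorem ent_X (gs : List Gad) {g s j : ℕ} (hj : j < 2) (hs : s < 2) :
    ent gs (2 * g + 2 + s) j = (gs.getD g gdz).1.get s j := by
  unfold ent
  rw [if_neg (by omega), if_pos hj]
  have e1 : (2 * g + 2 + s) / 2 - 1 = g := by omega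
  have e2 : (2 * g + 2 + s) % 2 = s := by omega
  rw [e1, e2]

theorem ent_Z (gs : List Gad) {g s t : ℕ} (hs : s < 2) (ht : t < 2) :
    ent gs (2 * g + 2 + s) (2 * g + 2 + t) = (gs.getD g gdz).2.2.get s t := by
  unfold ent
  rw [if_neg (by omega), if_neg (by omega), if_pos (by omega)]
  have e1 : (2 * g + 2 + s) / 2 - 1 = g := by omega
  have e2 : (2 * g + 2 + s) % 2 = s := by omega
  have e3 : (2 * g + 2 + t) % 2 = t := by omega
  rw [e1, e2, e3]

/-- If a block `Z - X Y` is invertible then the rank is at least `4`. -/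
theorem four_le_rank (gs : List Gad) (a : ℕ → ℝ) (g : ℕ) (hg : g < gs.length)
    (hdet : (evM a (gs.getD g gdz).2.2 -
      evM a (gs.getD g gdz).1 * evM a (gs.getD g gdz).2.1).det ≠ 0) :
    4 ≤ ((matOf gs).at a).rank := by
  have hN : (matOf gs).rows.length = 2 * gs.length + 2 := length_rows gs
  let r : Fin 2 ⊕ Fin 2 → Fin (matOf gs).rows.length :=
    Sum.elim (fun i => ⟨i, by omega⟩) (fun i => ⟨2 * g + 2 + i, by omega⟩)
  have key : ((matOf gs).at a).submatrix r r = Matrix.fromBlocks 1
      (evM a (gs.getD g gdz).2.1) (evM a (gs.getD g gdz).1) (evM a (gs.getD g gdz).2.2) := by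
    ext i j
    rcases i with i | i <;> rcases j with j | j
    · simp only [Matrix.submatrix_apply, matOf_at, Matrix.fromBlocks_apply₁₁]
      change (ent gs i j).eval a = _
      rw [ent_base gs a i.2 j.2, Matrix.one_apply]
      simp [Fin.ext_iff]
    · simp only [Matrix.submatrix_apply, matOf_at, Matrix.fromBlocks_apply₁₂]
      change (ent gs i (2 * g + 2 + j)).eval a = _
      rw [ent_Y gs i.2 j.2]
      rfl
    · simp only [Matrix.submatrix_apply, matOf_at, Matrix.fromBlocks_apply₂₁]
      change (ent gs (2 * g + 2 + i) j).eval a = _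
      rw [ent_X gs j.2 i.2]
      rfl
    · simp only [Matrix.submatrix_apply, matOf_at, Matrix.fromBlocks_apply₂₂]
      change (ent gs (2 * g + 2 + i) (2 * g + 2 + j)).eval a = _
      rw [ent_Z gs i.2 j.2]
      rfl
  have h1 : (((matOf gs).at a).submatrix r r).rank = 4 := by
    rw [Matrix.rank_of_det_ne_zero]
    · simp
    · rw [key, Matrix.det_fromBlocks_one₁₁]
      exact hdet
  rw [← h1]
  exact Matrix.rank_submatrix_le _ _ _

/-- The entry is a constant or an even variable. -/
def Ev : Entry → Prop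
  | Entry.const _ => True
  | Entry.var v => v % 2 = 0

/-- All entries of the block are even. -/
def EvM (m : M2) : Prop := ∀ i j, Ev (m.get i j)

theorem Ev.eval {e : Entry} (h : Ev e) {a a' : ℕ → ℝ} (ha : ∀ v, v % 2 = 0 → a' v = a v) :
    e.eval a' = e.eval a := by
  cases e with
  | const q => rfl
  | var v => exact ha v h

/-- If all the blocks `Z - X Y` vanish then the rank is at most `2`, for suitable values of the
odd variables. -/
theorem exists_rank_le_two (gs : List Gad) (a : ℕ → ℝ)
    (hev : ∀ g ∈ gs, EvM g.1 ∧ EvM g.2.1 ∧ EvM g.2.2)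
    (hz : ∀ g ∈ gs, evM a g.2.2 = evM a g.1 * evM a g.2.1) :
    ∃ a' : ℕ → ℝ, ((matOf gs).at a').rank ≤ 2 := by
  set N := dimOf gs with hNdef
  have hN : (matOf gs).rows.length = N := length_rows gs
  have hN' : N = 2 * gs.length + 2 := rfl
  let a' : ℕ → ℝ := fun v => if v % 2 = 0 then a v else
    (ent gs (v / 2 / N) 0).eval a * (ent gs 0 (v / 2 % N)).eval a +
    (ent gs (v / 2 / N) 1).eval a * (ent gs 1 (v / 2 % N)).eval a
  have ha' : ∀ v, v % 2 = 0 → a' v = a v := fun v hv => if_pos hv
  have hget : ∀ g < gs.length, gs.getD g gdz ∈ gs := by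
    intro g hg
    rw [List.getD_eq_getElem _ _ hg]
    exact List.getElem_mem hg
  have hrow : ∀ i < N, ∀ k < 2, (ent gs i k).eval a' = (ent gs i k).eval a := by
    intro i hi k hk
    by_cases hi2 : i < 2
    · rw [ent_base gs a' hi2 hk, ent_base gs a hi2 hk]
    · obtain ⟨g, s, hs, rfl⟩ : ∃ g s, s < 2 ∧ i = 2 * g + 2 + s :=
        ⟨i / 2 - 1, i % 2, by omega, by omega⟩
      rw [ent_X gs hk hs]
      exact ((hev _ (hget g (by omega))).1 s k).eval ha'
  have hcol : ∀ j < N, ∀ k < 2, (ent gs k j).eval a' = (ent gs k j).eval a := by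
    intro j hj k hk
    by_cases hj2 : j < 2
    · rw [ent_base gs a' hk hj2, ent_base gs a hk hj2]
    · obtain ⟨g, s, hs, rfl⟩ : ∃ g s, s < 2 ∧ j = 2 * g + 2 + s :=
        ⟨j / 2 - 1, j % 2, by omega, by omega⟩
      rw [ent_Y gs hk hs]
      exact ((hev _ (hget g (by omega))).2.1 k s).eval ha'
  have key : ∀ i < N, ∀ j < N, (ent gs i j).eval a' =
      (ent gs i 0).eval a' * (ent gs 0 j).eval a' + (ent gs i 1).eval a' * (ent gs 1 j).eval a' := by
    intro i hi j hj
    by_cases hi2 : i < 2
    · have h0 := ent_base gs a' hi2 (j := 0) (by omega)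
      have h1 := ent_base gs a' hi2 (j := 1) (by omega)
      rw [h0, h1]
      have : i = 0 ∨ i = 1 := by omega
      rcases this with rfl | rfl <;> simp
    · by_cases hj2 : j < 2
      · have h0 := ent_base gs a' (i := 0) (by omega) hj2
        have h1 := ent_base gs a' (i := 1) (by omega) hj2
        rw [h0, h1]
        have : j = 0 ∨ j = 1 := by omega
        rcases this with rfl | rfl <;> simp
      · obtain ⟨g, s, hs, rfl⟩ : ∃ g s, s < 2 ∧ i = 2 * g + 2 + s :=
          ⟨i / 2 - 1, i % 2, by omega, by omega⟩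
        obtain ⟨h, t, ht, rfl⟩ : ∃ h t, t < 2 ∧ j = 2 * h + 2 + t :=
          ⟨j / 2 - 1, j % 2, by omega, by omega⟩
        rw [hrow _ hi 0 (by omega), hrow _ hi 1 (by omega), hcol _ hj 0 (by omega),
          hcol _ hj 1 (by omega)]
        by_cases hgh : g = h
        · subst hgh
          have hg : g < gs.length := by omega
          rw [ent_Z gs hs ht, ent_X gs (j := 0) (by omega) hs, ent_X gs (j := 1) (by omega) hs,
            ent_Y gs (i := 0) (by omega) ht, ent_Y gs (i := 1) (by omega) ht,
            ((hev _ (hget g hg)).2.2 s t).eval ha']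
          have := congrFun (congrFun (hz _ (hget g hg)) ⟨s, hs⟩) ⟨t, ht⟩
          rw [Matrix.mul_apply, Fin.sum_univ_two] at this
          exact this
        · have e : ent gs (2 * g + 2 + s) (2 * h + 2 + t) =
              Entry.var (2 * ((2 * g + 2 + s) * N + (2 * h + 2 + t)) + 1) := by
            unfold ent
            rw [if_neg (by omega), if_neg (by omega), if_neg (by omega)]
          rw [e]
          change a' _ = _
          have e1 : (2 * ((2 * g + 2 + s) * N + (2 * h + 2 + t)) + 1) / 2 =
              (2 * g + 2 + s) * N + (2 * h + 2 + t) := by omega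
          have e2 : ((2 * g + 2 + s) * N + (2 * h + 2 + t)) / N = 2 * g + 2 + s := by
            rw [Nat.add_comm, Nat.add_mul_div_right _ _ (by omega), Nat.div_eq_of_lt hj]
            omega
          have e3 : ((2 * g + 2 + s) * N + (2 * h + 2 + t)) % N = 2 * h + 2 + t := by
            rw [Nat.add_comm, Nat.add_mul_mod_self_right, Nat.mod_eq_of_lt hj]
          simp only [a']
          rw [if_neg (by omega), e1, e2, e3]
  refine ⟨a', ?_⟩
  have hfac : (matOf gs).at a' =
      (Matrix.of fun (i : Fin (matOf gs).rows.length) (k : Fin 2) => (ent gs i k).eval a') *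
      (Matrix.of fun (k : Fin 2) (j : Fin (matOf gs).rows.length) => (ent gs k j).eval a') := by
    ext i j
    rw [matOf_at, Matrix.mul_apply, Fin.sum_univ_two]
    exact key i (by rw [← hN]; exact i.2) j (by rw [← hN]; exact j.2)
  rw [hfac]
  exact (Matrix.rank_mul_le_left _ _).trans (Matrix.rank_le_width _)

/-- The matrix of a system. -/
def sysMat (cs : List Con) : VarMatrix := matOf (cs.flatMap gads)

theorem evens (c : Con) : ∀ g ∈ gads c, EvM g.1 ∧ EvM g.2.1 ∧ EvM g.2.2 := by
  intro g hg
  have hp : ∀ v, Ev (ps v) := fun v => by simp only [ps, Ev]; omega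
  have hn : ∀ v, Ev (ng v) := fun v => by simp only [ng, Ev]; omega
  have h0 : Ev c0 := trivial
  have h1 : Ev c1 := trivial
  have hm : Ev cm := trivial
  unfold gads at hg
  split_ifs at hg
  · simp only [List.mem_cons, List.not_mem_nil, or_false] at hg
    rcases hg with rfl | rfl
    · refine ⟨?_, ?_, ?_⟩ <;> intro i j <;> unfold M2.get <;> split_ifs <;>
        first | exact h0 | exact h1 | exact hm | exact hp _ | exact hn _
    · refine ⟨?_, ?_, ?_⟩ <;> intro i j <;> unfold M2.get <;> split_ifs <;>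
        first | exact h0 | exact h1 | exact hm | exact hp _ | exact hn _
  · rw [List.mem_singleton] at hg
    subst hg
    refine ⟨?_, ?_, ?_⟩ <;> intro i j <;> unfold M2.get <;> split_ifs <;>
        first | exact h0 | exact h1 | exact hm | exact hp _ | exact hn _
  · rw [List.mem_singleton] at hg
    subst hg
    refine ⟨?_, ?_, ?_⟩ <;> intro i j <;> unfold M2.get <;> split_ifs <;>
        first | exact h0 | exact h1 | exact hm | exact hp _ | exact hn _

/-- A solution of the equation gives `Z = X Y`. -/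
theorem gads_of_sat {x : ℕ → ℝ} {a : ℕ → ℝ} (hp : ∀ v, a (4 * v) = x v)
    (hn : ∀ v, a (4 * v + 2) = - x v) {c : Con} (h : Sat x c) :
    ∀ g ∈ gads c, evM a g.2.2 = evM a g.1 * evM a g.2.1 := by
  intro g hg
  unfold Sat at h
  unfold gads at hg
  split_ifs at hg h
  · simp only [List.mem_cons, List.not_mem_nil, or_false] at hg
    rcases hg with rfl | rfl
    · ext i j
      rw [Matrix.mul_apply, Fin.sum_univ_two]
      fin_cases i <;> fin_cases j <;>
        simp [evM, M2.get, ps, ng, c0, cm, Entry.eval, hp, hn]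
    · ext i j
      rw [Matrix.mul_apply, Fin.sum_univ_two]
      fin_cases i <;> fin_cases j <;>
        simp [evM, M2.get, ps, ng, c0, c1, cm, Entry.eval, hp, hn, ← h]
  · rw [List.mem_singleton] at hg
    subst hg
    ext i j
    rw [Matrix.mul_apply, Fin.sum_univ_two]
    fin_cases i <;> fin_cases j <;>
      simp [evM, M2.get, ps, c0, Entry.eval, hp, ← h]
  · rw [List.mem_singleton] at hg
    subst hg
    ext i j
    rw [Matrix.mul_apply, Fin.sum_univ_two]
    fin_cases i <;> fin_cases j <;>
      simp [evM, M2.get, ps, c0, c1, Entry.eval, hp, h]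

/-- If all the blocks `Z - X Y` are singular then the equation holds. -/
theorem sat_of_gads {a : ℕ → ℝ} {c : Con}
    (h : ∀ g ∈ gads c, (evM a g.2.2 - evM a g.1 * evM a g.2.1).det = 0) :
    Sat (fun v => a (4 * v)) c := by
  unfold Sat
  unfold gads at h
  split_ifs at h ⊢
  · simp only [List.mem_cons, List.not_mem_nil, or_false, forall_eq_or_imp, forall_eq] at h
    obtain ⟨h1, h2⟩ := h
    rw [Matrix.det_fin_two] at h1 h2
    simp only [Matrix.sub_apply, Matrix.mul_apply, Fin.sum_univ_two] at h1 h2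
    simp [evM, M2.get, ps, ng, c0, c1, cm, Entry.eval] at h1 h2
    have h3 : a (4 * c.2.2.2 + 2) = - a (4 * c.2.2.2) := by
      rcases h1 with h | h <;> linarith
    rw [h3] at h2
    show a (4 * c.2.1) + a (4 * c.2.2.1) = a (4 * c.2.2.2)
    rcases h2 with h | h <;> linarith
  · rw [List.forall_mem_singleton] at h
    rw [Matrix.det_fin_two] at h
    simp only [Matrix.sub_apply, Matrix.mul_apply, Fin.sum_univ_two] at h
    simp [evM, M2.get, ps, c0, Entry.eval] at h
    show a (4 * c.2.1) * a (4 * c.2.2.1) = a (4 * c.2.2.2)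
    linarith
  · rw [List.forall_mem_singleton] at h
    rw [Matrix.det_fin_two] at h
    simp only [Matrix.sub_apply, Matrix.mul_apply, Fin.sum_univ_two] at h
    simp [evM, M2.get, ps, c0, c1, Entry.eval] at h
    show a (4 * c.2.1) = 1
    linarith

/-- A solvable system has a matrix of minimum rank at most `2`. -/
theorem minRank_le_two {cs : List Con} {x : ℕ → ℝ} (h : ∀ c ∈ cs, Sat x c) :
    (sysMat cs).minRank ≤ 2 := by
  let a : ℕ → ℝ := fun v => if v % 4 = 0 then x (v / 4) else - x (v / 4)
  have hp : ∀ v, a (4 * v) = x v := by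
    intro v
    simp only [a]
    rw [if_pos (by omega)]
    congr 1
    omega
  have hn : ∀ v, a (4 * v + 2) = - x v := by
    intro v
    simp only [a]
    rw [if_neg (by omega)]
    congr 2
    omega
  obtain ⟨a', ha'⟩ := exists_rank_le_two (cs.flatMap gads) a
    (fun g hg => by
      rw [List.mem_flatMap] at hg
      obtain ⟨c, _, hg⟩ := hg
      exact evens c g hg)
    (fun g hg => by
      rw [List.mem_flatMap] at hg
      obtain ⟨c, hc, hg⟩ := hg
      exact gads_of_sat hp hn (h c hc) g hg)
  have hmem : ((matOf (cs.flatMap gads)).at a').rank ∈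
      {r | ∃ a : ℕ → ℝ, ((sysMat cs).at a).rank = r} := ⟨a', rfl⟩
  exact (Nat.sInf_le hmem).trans ha'

/-- An unsolvable system has a matrix of minimum rank at least `4`. -/
theorem four_le_minRank {cs : List Con} (h : ¬ ∃ x : ℕ → ℝ, ∀ c ∈ cs, Sat x c) :
    4 ≤ (sysMat cs).minRank := by
  have hne : {r | ∃ a : ℕ → ℝ, ((sysMat cs).at a).rank = r}.Nonempty := ⟨_, fun _ => 0, rfl⟩
  obtain ⟨a, ha⟩ := Nat.sInf_mem hne
  change ((sysMat cs).at a).rank = (sysMat cs).minRank at ha
  rw [← ha]
  by_contra hlt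
  apply h
  refine ⟨fun v => a (4 * v), fun c hc => sat_of_gads fun g hg => ?_⟩
  by_contra hdet
  apply hlt
  have hmem : g ∈ cs.flatMap gads := List.mem_flatMap.2 ⟨c, hc, hg⟩
  obtain ⟨i, hi, e⟩ := List.getElem_of_mem hmem
  refine four_le_rank _ a i hi ?_
  rw [List.getD_eq_getElem _ _ hi, e]
  exact hdet

end Pool.Agent.H606R2.MinRank
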