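import Pool.Agent.H606R2.MinRank.Mat

/-!
# The reduction is computable in polynomial time
-/

namespace Pool.Agent.NPC.H606MinRank

open Pool.Agent.H606R2.MinRank
open Turing

/-- Polynomial-time maps between coded types, in the library's sense, are polynomial-time maps in
Mathlib's sense. -/
theorem polyTimeMap_of_poly {α β : Type} [TEnc α] [TEnc β] {f : α → β} (h : Poly f) :
    PolyTimeMap f := by
  obtain ⟨c, p, h⟩ := h
  have key : ∀ x : α, ∃ t, t ≤ p.eval (bits x).length + 1 ∧
      Nonempty (TM2OutputsInTime (c.map (Fin.ofNat (c.bd + 1))).toTM (bits x)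
        (some (bits (f x))) t) := by
    intro x
    obtain ⟨t, ht, hr⟩ := h x
    have h1 := hr.restrict (n := c.bd) (by omega)
    refine ⟨t + 1, by simpa using ht, toTM_outputs ?_⟩
    convert! h1 using 1
    · funext i
      by_cases hi : i = 0
      · subst hi; simp [inp]
      · have : (i : ℕ) ≠ 0 := fun h => hi (Fin.ext h)
        simp [inp, hi, this]
    · funext i
      by_cases hi : i = 0
      · subst hi; simp [inp]
      · have : (i : ℕ) ≠ 0 := fun h => hi (Fin.ext h)
        simp [inp, hi, this]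
  refine ⟨{ tm := (c.map (Fin.ofNat (c.bd + 1))).toTM
            inputAlphabet := Equiv.refl Bool
            outputAlphabet := Equiv.refl Bool
            time := p + 1
            outputsFun := ?_ }⟩
  intro x
  have hx := key x
  have ht := hx.choose_spec.1
  have hm := hx.choose_spec.2.some
  refine outputs_conv (List.map_id (bits x)).symm (List.map_id (bits (f x))).symm
    (ht.trans ?_) hm
  simp

section Basic

variable {α β : Type} [TEnc α] [TEnc β]

theorem poly_headD {l : α → List β} (hl : Poly l) (d : β) : Poly (fun a => (l a).headD d) :=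
  (Poly.head?_getD hl d).congr fun a => by cases l a <;> rfl

theorem poly_nm {k j : α → ℕ} (hk : Poly k) (hj : Poly j) : Poly (fun a => nm (k a) (j a)) :=
  Poly.add (Poly.mul (Poly.const 2) (Poly.add (Poly.mul (Poly.const 10) hk) hj)) (Poly.const 1)

theorem poly_nmx {k t s c : α → ℕ} (hk : Poly k) (ht : Poly t) (hs : Poly s) (hc : Poly c) :
    Poly (fun a => nmx (k a) (t a) (s a) (c a)) :=
  Poly.ite (Poly.decide_eq hc (Poly.const 10)) ht
    (Poly.ite (Poly.decide_eq hc (Poly.const 11)) hs (poly_nm hk hc))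

theorem poly_newCons {k t s kd : α → ℕ} (hk : Poly k) (ht : Poly t) (hs : Poly s) (hkd : Poly kd) :
    Poly (fun a => newCons (k a) (t a) (s a) (kd a)) := by
  unfold newCons
  have hf : Poly (fun p : α × Con => p.1) := Poly.fst Poly.id
  have hc : Poly (fun p : α × Con => p.2) := Poly.snd Poly.id
  have hk' := hk.comp hf
  have ht' := ht.comp hf
  have hs' := hs.comp hf
  exact Poly.map (F := fun a (c : Con) => ((c.1, nmx (k a) (t a) (s a) c.2.1,
    nmx (k a) (t a) (s a) c.2.2.1, nmx (k a) (t a) (s a) c.2.2.2) : Con))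
    (Poly.getD (Poly.const tables) hkd (Poly.const []))
    (Poly.pair (Poly.fst hc) (Poly.pair (poly_nmx hk' ht' hs' (Poly.fst (Poly.snd hc)))
      (Poly.pair (poly_nmx hk' ht' hs' (Poly.fst (Poly.snd (Poly.snd hc))))
        (poly_nmx hk' ht' hs' (Poly.snd (Poly.snd (Poly.snd hc)))))))

theorem poly_newStack {k : α → ℕ} {st : α → List ℕ} {tok : α → ℕ × ℕ} (hk : Poly k)
    (hst : Poly st) (htok : Poly tok) : Poly (fun a => newStack (k a) (st a) (tok a)) :=
  Poly.ite (Poly.decide_eq (Poly.fst htok) (Poly.const 2))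
    (Poly.cons (Poly.mul (Poly.const 2) (Poly.snd htok)) hst)
    (Poly.ite (Poly.decide_le (Poly.fst htok) (Poly.const 1))
      (Poly.cons (poly_nm hk (Poly.const 0)) hst)
      (Poly.ite (Poly.decide_eq (Poly.fst htok) (Poly.const 7))
        (Poly.cons (poly_nm hk (Poly.const 0)) (Poly.tail hst))
        (Poly.cons (poly_nm hk (Poly.const 0)) (Poly.tail (Poly.tail hst)))))

theorem poly_step : Poly (fun p : (ℕ × List ℕ × List Con) × (ℕ × ℕ) => step p.1 p.2) := by
  have h1 : Poly (fun p : (ℕ × List ℕ × List Con) × (ℕ × ℕ) => p.1.1) := Poly.fst (Poly.fst Poly.id)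
  have h2 : Poly (fun p : (ℕ × List ℕ × List Con) × (ℕ × ℕ) => p.1.2.1) :=
    Poly.fst (Poly.snd (Poly.fst Poly.id))
  have h3 : Poly (fun p : (ℕ × List ℕ × List Con) × (ℕ × ℕ) => p.1.2.2) :=
    Poly.snd (Poly.snd (Poly.fst Poly.id))
  have h4 : Poly (fun p : (ℕ × List ℕ × List Con) × (ℕ × ℕ) => p.2) := Poly.snd Poly.id
  exact Poly.pair (Poly.succ h1) (Poly.pair (poly_newStack h1 h2 h4)
    (Poly.append h3 (poly_newCons h1 (poly_headD h2 0) (poly_headD (Poly.tail h2) 0)
      (Poly.fst h4))))

end Basic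

/-! ### Size bounds for the fold -/

theorem table_all (kind : ℕ) : ∀ c ∈ tables.getD kind [],
    c.1 ≤ 2 ∧ c.2.1 < 12 ∧ c.2.2.1 < 12 ∧ c.2.2.2 < 12 := by
  by_cases h : kind < 10
  · revert kind
    decide
  · rw [List.getD_eq_default]
    · simp
    · simp [tables]; omega

theorem table_length (kind : ℕ) : (tables.getD kind []).length ≤ 10 := by
  by_cases h : kind < 10
  · revert kind
    decide
  · rw [List.getD_eq_default]
    · simp
    · simp [tables]; omega

/-- The invariant of the fold. -/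
structure Inv (B n : ℕ) (s : ℕ × List ℕ × List Con) : Prop where
  pos : s.1 = n
  len : s.2.1.length ≤ n
  stk : ∀ v ∈ s.2.1, sz v ≤ B
  num : s.2.2.length ≤ 10 * n
  con : ∀ c ∈ s.2.2, sz c ≤ 3 * B + 20

theorem sz_small {n : ℕ} (h : n ≤ 2) : sz n ≤ 9 := by
  have h1 := sz_nat_le n
  have h2 : n.size ≤ 2 := Nat.size_le.2 (by omega)
  omega

theorem inv_step {B n N : ℕ} {s : ℕ × List ℕ × List Con} {tok : ℕ × ℕ} (hB0 : 1 ≤ B)
    (hB1 : ∀ k < N, ∀ j < 12, sz (nm k j) ≤ B) (hB2 : sz (2 * tok.2) ≤ B) (hn : n < N)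
    (h : Inv B n s) : Inv B (n + 1) (step s tok) := by
  have hz : sz 0 ≤ B := hB0
  have hhd : ∀ l : List ℕ, (∀ v ∈ l, sz v ≤ B) → sz (l.headD 0) ≤ B := by
    intro l hl
    cases l with
    | nil => exact hz
    | cons a l => exact hl a (by simp)
  have hnm0 : sz (nm s.1 0) ≤ B := hB1 _ (by rw [h.pos]; exact hn) 0 (by omega)
  constructor
  · simp [step, h.pos]
  · simp only [step, newStack]
    have := h.len
    split_ifs <;> simp <;> omega
  · intro v hv
    simp only [step, newStack] at hv
    split_ifs at hv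
    · rcases List.mem_cons.1 hv with rfl | hv
      · exact hB2
      · exact h.stk v hv
    · rcases List.mem_cons.1 hv with rfl | hv
      · exact hnm0
      · exact h.stk v hv
    · rcases List.mem_cons.1 hv with rfl | hv
      · exact hnm0
      · exact h.stk v (List.mem_of_mem_tail hv)
    · rcases List.mem_cons.1 hv with rfl | hv
      · exact hnm0
      · exact h.stk v (List.mem_of_mem_tail (List.mem_of_mem_tail hv))
  · simp only [step, List.length_append, newCons, List.length_map]
    have := h.num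
    have := table_length tok.1
    omega
  · intro c hc
    simp only [step, List.mem_append] at hc
    rcases hc with hc | hc
    · exact h.con c hc
    · unfold newCons at hc
      rw [List.mem_map] at hc
      obtain ⟨d, hd, rfl⟩ := hc
      obtain ⟨e0, e1, e2, e3⟩ := table_all tok.1 d hd
      have htop : sz (s.2.1.headD 0) ≤ B := hhd _ h.stk
      have hsnd : sz (s.2.1.tail.headD 0) ≤ B :=
        hhd _ (fun v hv => h.stk v (List.mem_of_mem_tail hv))
      have key : ∀ c < 12, sz (nmx s.1 (s.2.1.headD 0) (s.2.1.tail.headD 0) c) ≤ B := by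
        intro c hc
        unfold nmx
        split_ifs
        · exact htop
        · exact hsnd
        · exact hB1 _ (by rw [h.pos]; exact hn) c hc
      have := key _ e1
      have := key _ e2
      have := key _ e3
      have := sz_small e0
      simp only [sz_pair]
      omega

theorem inv_fold {B N : ℕ} (hB0 : 1 ≤ B) (hB1 : ∀ k < N, ∀ j < 12, sz (nm k j) ≤ B) :
    ∀ (l : List (ℕ × ℕ)) (n : ℕ) (s : ℕ × List ℕ × List Con), n + l.length ≤ N →
      (∀ tok ∈ l, sz (2 * tok.2) ≤ B) → Inv B n s → Inv B (n + l.length) (l.foldl step s) := by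
  intro l
  induction l with
  | nil => intro n s _ _ h; simpa using h
  | cons tok l ih =>
    intro n s hN hl h
    rw [List.length_cons] at hN
    have h1 := inv_step hB0 hB1 (hl tok (by simp)) (by omega) h
    have h2 := ih (n + 1) (step s tok) (by omega) (fun t ht => hl t (by simp [ht])) h1
    rw [List.foldl_cons, List.length_cons]
    have e : n + (l.length + 1) = n + 1 + l.length := by omega
    rw [e]
    exact h2

theorem Inv.size {B n : ℕ} {s : ℕ × List ℕ × List Con} (h : Inv B n s) :
    sz s ≤ 4 * n + 1 + (n * (B + 1) + 1) + (10 * n * (3 * B + 21) + 1) + 2 := by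
  obtain ⟨k, st, out⟩ := s
  have h0 := h.pos
  have h1 := sz_le_length_mul st B h.stk
  have h2 := sz_le_length_mul out (3 * B + 20) h.con
  have h3 := sz_nat_le k
  have h4 := Poly.size_le_self k
  have h5 : st.length * (B + 1) ≤ n * (B + 1) := Nat.mul_le_mul_right _ h.len
  have h6 : out.length * (3 * B + 20 + 1) ≤ 10 * n * (3 * B + 20 + 1) :=
    Nat.mul_le_mul_right _ h.num
  have e : 3 * B + 20 + 1 = 3 * B + 21 := by omega
  rw [e] at h2 h6
  simp only at h0
  subst h0
  simp only [sz_pair]
  omega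

theorem poly_fold {α : Type} [TEnc α] {l : α → List (ℕ × ℕ)} (hl : Poly l) :
    Poly (fun a => (l a).foldl step (0, [], [])) := by
  obtain ⟨r, hr⟩ := hl.sz_le
  have h2 : Poly (fun p : ℕ × ℕ => 2 * p.2) := Poly.mul (Poly.const 2) (Poly.snd Poly.id)
  obtain ⟨q, hq⟩ := h2.sz_le
  -- the bound `B` as a polynomial in the size of the input
  let Bp : Polynomial ℕ := q.comp r + Polynomial.C 80 * r + Polynomial.C 200
  let Sp : Polynomial ℕ := Polynomial.C 4 * r + Polynomial.C 1 +
    (r * (Bp + Polynomial.C 1) + Polynomial.C 1) +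
    (Polynomial.C 10 * r * (Polynomial.C 3 * Bp + Polynomial.C 21) + Polynomial.C 1) +
    Polynomial.C 2
  refine Poly.foldl (F := fun _ s b => step s b) hl (Poly.const _)
    (poly_step.comp (Poly.pair (Poly.fst (Poly.snd Poly.id)) (Poly.snd (Poly.snd Poly.id)))) Sp ?_
  intro a k hk
  have hlen : (l a).length < r.eval (sz a) := lt_of_lt_of_le (length_lt_sz (l a)) (hr a)
  have hB : Bp.eval (sz a) = q.eval (r.eval (sz a)) + 80 * r.eval (sz a) + 200 := by
    simp [Bp, Polynomial.eval_comp]
  have h1 : ∀ k < r.eval (sz a), ∀ j < 12, sz (nm k j) ≤ Bp.eval (sz a) := by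
    intro k hk j hj
    have e1 := sz_nat_le (nm k j)
    have e2 := Poly.size_le_self (nm k j)
    rw [hB]
    unfold nm at e1 e2 ⊢
    omega
  have h3 : ∀ tok ∈ (l a).take k, sz (2 * tok.2) ≤ Bp.eval (sz a) := by
    intro tok ht
    have e1 := hq tok
    have e2 := sz_le_of_mem (List.mem_of_mem_take ht)
    have e3 : q.eval (sz tok) ≤ q.eval (r.eval (sz a)) := eval_mono q (by have := hr a; omega)
    rw [hB]
    omega
  have h4 : Inv (Bp.eval (sz a)) 0 (0, [], []) :=
    ⟨rfl, by simp, by simp, by simp, by simp⟩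
  have h5 := inv_fold (N := r.eval (sz a)) (by rw [hB]; omega) h1 ((l a).take k) 0 (0, [], [])
    (by simp; omega) h3 h4
  have h6 := h5.size
  refine h6.trans ?_
  have e : 0 + ((l a).take k).length ≤ r.eval (sz a) := by
    rw [List.length_take]
    omega
  generalize 0 + ((l a).take k).length = n at e
  have hS : Sp.eval (sz a) = 4 * r.eval (sz a) + 1 +
      (r.eval (sz a) * (Bp.eval (sz a) + 1) + 1) +
      (10 * r.eval (sz a) * (3 * Bp.eval (sz a) + 21) + 1) + 2 := by
    simp [Sp]
  rw [hS]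
  have e1 : n * (Bp.eval (sz a) + 1) ≤ r.eval (sz a) * (Bp.eval (sz a) + 1) :=
    Nat.mul_le_mul_right _ e
  have e2 : 10 * n * (3 * Bp.eval (sz a) + 21) ≤
      10 * r.eval (sz a) * (3 * Bp.eval (sz a) + 21) :=
    Nat.mul_le_mul_right _ (by omega)
  omega

theorem poly_sysOf : Poly sysOf := by
  have h := poly_fold (l := fun l : List (ℕ × ℕ) => l) Poly.id
  exact Poly.append (Poly.snd (Poly.snd h)) (Poly.cons (Poly.pair (Poly.const 2)
    (Poly.pair (poly_headD (Poly.fst (Poly.snd h)) 0) (Poly.pair (Poly.const 0) (Poly.const 0))))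
    (Poly.const []))

/-! ### The matrix -/

section

variable {α : Type} [TEnc α]

theorem poly_var {v : α → ℕ} (hv : Poly v) : Poly (fun a => Entry.var (v a)) :=
  Poly.of_toT ((Poly.inr (β := ℚ) hv).toT'.congr fun _ => rfl)

theorem poly_ps {v : α → ℕ} (hv : Poly v) : Poly (fun a => ps (v a)) :=
  poly_var (Poly.mul (Poly.const 4) hv)

theorem poly_ng {v : α → ℕ} (hv : Poly v) : Poly (fun a => ng (v a)) :=
  poly_var (Poly.add (Poly.mul (Poly.const 4) hv) (Poly.const 2))

theorem poly_m2 {a b c d : α → Entry} (ha : Poly a) (hb : Poly b) (hc : Poly c) (hd : Poly d) :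
    Poly (fun x => (((a x, b x), (c x, d x)) : M2)) :=
  Poly.pair (Poly.pair ha hb) (Poly.pair hc hd)

theorem poly_get {m : α → M2} {i j : α → ℕ} (hm : Poly m) (hi : Poly i) (hj : Poly j) :
    Poly (fun x => (m x).get (i x) (j x)) :=
  Poly.ite (Poly.decide_eq hi (Poly.const 0))
    (Poly.ite (Poly.decide_eq hj (Poly.const 0)) (Poly.fst (Poly.fst hm)) (Poly.snd (Poly.fst hm)))
    (Poly.ite (Poly.decide_eq hj (Poly.const 0)) (Poly.fst (Poly.snd hm)) (Poly.snd (Poly.snd hm)))

theorem poly_gads : Poly gads := by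
  have h1 : Poly (fun c : Con => c.1) := Poly.fst Poly.id
  have h2 : Poly (fun c : Con => c.2.1) := Poly.fst (Poly.snd Poly.id)
  have h3 : Poly (fun c : Con => c.2.2.1) := Poly.fst (Poly.snd (Poly.snd Poly.id))
  have h4 : Poly (fun c : Con => c.2.2.2) := Poly.snd (Poly.snd (Poly.snd Poly.id))
  have z : Poly (fun _ : Con => c0) := Poly.const _
  have o : Poly (fun _ : Con => c1) := Poly.const _
  have m : Poly (fun _ : Con => cm) := Poly.const _
  refine Poly.ite (Poly.decide_eq h1 (Poly.const 0)) ?_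
    (Poly.ite (Poly.decide_eq h1 (Poly.const 1)) ?_ ?_)
  · refine Poly.cons (Poly.pair ?_ (Poly.pair ?_ ?_)) (Poly.cons (Poly.pair ?_ (Poly.pair ?_ ?_))
      (Poly.const []))
    · exact poly_m2 z (poly_ng h4) (poly_ps h4) z
    · exact poly_m2 z m m z
    · exact poly_m2 (poly_ps h4) z z (poly_ng h4)
    · exact poly_m2 (poly_ps h2) o (poly_ps h3) m
    · exact poly_m2 o m (poly_ps h3) (poly_ps h2)
    · exact poly_m2 (poly_ps h4) z z (poly_ng h4)
  · refine Poly.cons (Poly.pair ?_ (Poly.pair ?_ ?_)) (Poly.const [])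
    · exact poly_m2 (poly_ps h2) z z (poly_ps h2)
    · exact poly_m2 (poly_ps h3) z z (poly_ps h3)
    · exact poly_m2 (poly_ps h4) z z (poly_ps h4)
  · refine Poly.cons (Poly.pair ?_ (Poly.pair ?_ ?_)) (Poly.const [])
    · exact poly_m2 o z z o
    · exact poly_m2 o z z o
    · exact poly_m2 (poly_ps h2) z z (poly_ps h2)

theorem poly_ent {gs : α → List Gad} {i j : α → ℕ} (hgs : Poly gs) (hi : Poly i) (hj : Poly j) :
    Poly (fun x => ent (gs x) (i x) (j x)) := by
  have h2 : Poly (fun _ : α => 2) := Poly.const 2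
  have h1 : Poly (fun _ : α => 1) := Poly.const 1
  have hdim : Poly (fun x => dimOf (gs x)) := Poly.add (Poly.mul h2 (Poly.length hgs)) h2
  have hgi : Poly (fun x => (gs x).getD (i x / 2 - 1) gdz) :=
    Poly.getD hgs (Poly.sub (Poly.div hi h2) h1) (Poly.const gdz)
  have hgj : Poly (fun x => (gs x).getD (j x / 2 - 1) gdz) :=
    Poly.getD hgs (Poly.sub (Poly.div hj h2) h1) (Poly.const gdz)
  refine Poly.ite (Poly.decide_lt hi h2) (Poly.ite (Poly.decide_lt hj h2)
    (Poly.ite (Poly.decide_eq hi hj) (Poly.const c1) (Poly.const c0)) ?_)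
    (Poly.ite (Poly.decide_lt hj h2) ?_ (Poly.ite (Poly.decide_eq (Poly.div hi h2)
      (Poly.div hj h2)) ?_ ?_))
  · exact poly_get (Poly.fst (Poly.snd hgj)) hi (Poly.mod hj h2)
  · exact poly_get (Poly.fst hgi) (Poly.mod hi h2) hj
  · exact poly_get (Poly.snd (Poly.snd hgi)) (Poly.mod hi h2) (Poly.mod hj h2)
  · exact poly_var (Poly.add (Poly.mul h2 (Poly.add (Poly.mul hi hdim) hj)) h1)

theorem poly_rowsOf : Poly rowsOf := by
  have hU : UPoly (fun gs : List Gad => dimOf gs) :=
    UPoly.add (UPoly.mul (UPoly.const 2) (UPoly.length Poly.id)) (UPoly.const 2)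
  refine Poly.map (F := fun (gs : List Gad) i => (List.range (dimOf gs)).map fun j => ent gs i j)
    hU.range ?_
  refine Poly.map (F := fun (p : List Gad × ℕ) j => ent p.1 p.2 j)
    (hU.comp (Poly.fst Poly.id)).range ?_
  exact poly_ent (Poly.fst (Poly.fst Poly.id)) (Poly.snd (Poly.fst Poly.id)) (Poly.snd Poly.id)

end

theorem poly_code : Poly Formula.code :=
  Poly.of_toT ((Poly.id (α := Formula)).toT'.congr fun _ => rfl)

/-- The reduction. -/
def red (φ : Formula) : VarMatrix × ℕ := (sysMat (sysOf φ.code), 2)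

theorem poly_red : Poly red := by
  have h1 : Poly (fun φ : Formula => rowsOf ((sysOf φ.code).flatMap gads)) :=
    poly_rowsOf.comp (Poly.flatMap (F := fun _ c => gads c) (poly_sysOf.comp poly_code)
      (poly_gads.comp (Poly.snd Poly.id)))
  have h2 : Poly (fun φ : Formula => sysMat (sysOf φ.code)) :=
    Poly.of_toT (h1.toT'.congr fun _ => rfl)
  exact Poly.pair h2 (Poly.const 2)

end Pool.Agent.NPC.H606MinRank
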