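import Pool.Agent.H606R2.MinRank.Defs

/-!
# From sentences to systems of elementary equations

A system is a list of quadruples: `(0, i, j, k)` stands for `x_i + x_j = x_k`, `(1, i, j, k)` for
`x_i x_j = x_k` and `(2, i, _, _)` for `x_i = 1`.
-/

namespace Pool.Agent.H606R2.MinRank

open Pool.Agent.NPC

/-- Elementary equations. -/
abbrev Con : Type := ℕ × ℕ × ℕ × ℕ

/-- The equation holds at `x`. -/
def Sat (x : ℕ → ℝ) (c : Con) : Prop :=
  if c.1 = 0 then x c.2.1 + x c.2.2.1 = x c.2.2.2
  else if c.1 = 1 then x c.2.1 * x c.2.2.1 = x c.2.2.2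
  else x c.2.1 = 1

/-- The `j`-th auxiliary variable of the symbol at position `k`. -/
def nm (k j : ℕ) : ℕ := 2 * (10 * k + j) + 1

/-- Names in the tables: `10` is the top of the stack, `11` the element below it. -/
def nmx (k top snd c : ℕ) : ℕ := if c = 10 then top else if c = 11 then snd else nm k c

/-- The equations for the symbol of each kind. -/
def tables : List (List Con) :=
  [[(0, 0, 0, 0)],
   [(2, 0, 0, 0)],
   [],
   [(0, 11, 10, 0)],
   [(1, 11, 10, 0)],
   [(0, 10, 1, 11), (0, 2, 2, 2), (1, 0, 1, 2), (2, 3, 0, 0), (0, 0, 4, 3), (1, 1, 5, 4)],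
   [(0, 11, 1, 10), (0, 2, 2, 2), (2, 3, 0, 0), (0, 0, 4, 3), (1, 0, 4, 2), (1, 5, 5, 6),
     (1, 1, 6, 7), (1, 0, 7, 0), (0, 1, 6, 8), (1, 4, 8, 2)],
   [(2, 1, 0, 0), (0, 0, 10, 1)],
   [(1, 11, 10, 0)],
   [(1, 11, 10, 1), (0, 0, 1, 2), (0, 11, 10, 2)]]

/-- The equations added by a symbol of the given kind at position `k`. -/
def newCons (k top snd kind : ℕ) : List Con :=
  (tables.getD kind []).map fun c =>
    (c.1, nmx k top snd c.2.1, nmx k top snd c.2.2.1, nmx k top snd c.2.2.2)

/-- The new stack. -/
def newStack (k : ℕ) (st : List ℕ) (tok : ℕ × ℕ) : List ℕ :=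
  if tok.1 = 2 then 2 * tok.2 :: st
  else if tok.1 ≤ 1 then nm k 0 :: st
  else if tok.1 = 7 then nm k 0 :: st.tail
  else nm k 0 :: st.tail.tail

/-- One step of the translation: position, stack of results, equations. -/
def step (s : ℕ × List ℕ × List Con) (tok : ℕ × ℕ) : ℕ × List ℕ × List Con :=
  (s.1 + 1, newStack s.1 s.2.1 tok,
    s.2.2 ++ newCons s.1 (s.2.1.headD 0) (s.2.1.tail.headD 0) tok.1)

/-- The system attached to a string of symbols. -/
def sysOf (l : List (ℕ × ℕ)) : List Con :=
  (l.foldl step (0, [], [])).2.2 ++ [(2, (l.foldl step (0, [], [])).2.1.headD 0, 0, 0)]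

/-! ### The structural description -/

/-- The number of symbols. -/
def Term.len : Term → ℕ
  | zero => 1
  | one => 1
  | var _ => 1
  | add s t => s.len + t.len + 1
  | mul s t => s.len + t.len + 1

/-- The variable holding the value. -/
def Term.res : Term → ℕ → ℕ
  | zero, k => nm k 0
  | one, k => nm k 0
  | var n, _ => 2 * n
  | add s t, k => nm (k + s.len + t.len) 0
  | mul s t, k => nm (k + s.len + t.len) 0

/-- The equations. -/
def Term.cons : Term → ℕ → List Con
  | zero, k => newCons k 0 0 0
  | one, k => newCons k 0 0 1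
  | var _, _ => []
  | add s t, k => s.cons k ++ (t.cons (k + s.len) ++
      newCons (k + s.len + t.len) (t.res (k + s.len)) (s.res k) 3)
  | mul s t, k => s.cons k ++ (t.cons (k + s.len) ++
      newCons (k + s.len + t.len) (t.res (k + s.len)) (s.res k) 4)

/-- The number of symbols. -/
def Formula.len : Formula → ℕ
  | eq s t => s.len + t.len + 1
  | lt s t => s.len + t.len + 1
  | not φ => φ.len + 1
  | and φ ψ => φ.len + ψ.len + 1
  | or φ ψ => φ.len + ψ.len + 1

/-- The variable holding the truth value. -/
def Formula.res : Formula → ℕ → ℕ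
  | eq s t, k => nm (k + s.len + t.len) 0
  | lt s t, k => nm (k + s.len + t.len) 0
  | not φ, k => nm (k + φ.len) 0
  | and φ ψ, k => nm (k + φ.len + ψ.len) 0
  | or φ ψ, k => nm (k + φ.len + ψ.len) 0

/-- The equations. -/
def Formula.cons : Formula → ℕ → List Con
  | eq s t, k => s.cons k ++ (t.cons (k + s.len) ++
      newCons (k + s.len + t.len) (t.res (k + s.len)) (s.res k) 5)
  | lt s t, k => s.cons k ++ (t.cons (k + s.len) ++
      newCons (k + s.len + t.len) (t.res (k + s.len)) (s.res k) 6)
  | not φ, k => φ.cons k ++ newCons (k + φ.len) (φ.res k) 0 7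
  | and φ ψ, k => φ.cons k ++ (ψ.cons (k + φ.len) ++
      newCons (k + φ.len + ψ.len) (ψ.res (k + φ.len)) (φ.res k) 8)
  | or φ ψ, k => φ.cons k ++ (ψ.cons (k + φ.len) ++
      newCons (k + φ.len + ψ.len) (ψ.res (k + φ.len)) (φ.res k) 9)

theorem newCons_irrel (k t s : ℕ) {kind : ℕ} (h : kind ≤ 2) :
    newCons k t s kind = newCons k 0 0 kind := by
  interval_cases kind <;> simp [newCons, tables, nmx]

theorem newCons_irrel7 (k t s : ℕ) :
    newCons k t s 7 = newCons k t 0 7 := by
  simp [newCons, tables, nmx]

theorem foldl_term (t : Term) : ∀ (k : ℕ) (st : List ℕ) (out : List Con),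
    t.code.foldl step (k, st, out) = (k + t.len, t.res k :: st, out ++ t.cons k) := by
  induction t with
  | zero =>
    intro k st out
    simp [Term.code, step, newStack, Term.len, Term.res, Term.cons]
    exact newCons_irrel k _ _ (kind := 0) (by omega)
  | one =>
    intro k st out
    simp [Term.code, step, newStack, Term.len, Term.res, Term.cons]
    exact newCons_irrel k _ _ (kind := 1) (by omega)
  | var n =>
    intro k st out
    simp [Term.code, step, newStack, Term.len, Term.res, Term.cons, newCons, tables]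
  | add s t ihs iht =>
    intro k st out
    simp only [Term.code, List.foldl_append, ihs, iht]
    simp [step, newStack, Term.len, Term.res, Term.cons, List.append_assoc]
    omega
  | mul s t ihs iht =>
    intro k st out
    simp only [Term.code, List.foldl_append, ihs, iht]
    simp [step, newStack, Term.len, Term.res, Term.cons, List.append_assoc]
    omega

theorem foldl_formula (φ : Formula) : ∀ (k : ℕ) (st : List ℕ) (out : List Con),
    φ.code.foldl step (k, st, out) = (k + φ.len, φ.res k :: st, out ++ φ.cons k) := by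
  induction φ with
  | eq s t =>
    intro k st out
    simp only [Formula.code, List.foldl_append, foldl_term]
    simp [step, newStack, Formula.len, Formula.res, Formula.cons, List.append_assoc]
    omega
  | lt s t =>
    intro k st out
    simp only [Formula.code, List.foldl_append, foldl_term]
    simp [step, newStack, Formula.len, Formula.res, Formula.cons, List.append_assoc]
    omega
  | not φ ih =>
    intro k st out
    simp only [Formula.code, List.foldl_append, ih]
    simp only [List.foldl_cons, List.foldl_nil, step, List.headD_cons, List.tail_cons]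
    rw [newCons_irrel7]
    simp [newStack, Formula.len, Formula.res, Formula.cons, List.append_assoc]
    omega
  | and φ ψ ih ih' =>
    intro k st out
    simp only [Formula.code, List.foldl_append, ih, ih']
    simp [step, newStack, Formula.len, Formula.res, Formula.cons, List.append_assoc]
    omega
  | or φ ψ ih ih' =>
    intro k st out
    simp only [Formula.code, List.foldl_append, ih, ih']
    simp [step, newStack, Formula.len, Formula.res, Formula.cons, List.append_assoc]
    omega

theorem sysOf_code (φ : Formula) :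
    sysOf φ.code = φ.cons 0 ++ [(2, φ.res 0, 0, 0)] := by
  rw [sysOf, foldl_formula]
  simp

/-! ### Soundness -/

theorem sat_newCons_zero {x : ℕ → ℝ} {k t s : ℕ} (h : ∀ c ∈ newCons k t s 0, Sat x c) :
    x (nm k 0) = 0 := by
  simpa [newCons, tables, nmx, Sat] using h

theorem sat_newCons_one {x : ℕ → ℝ} {k t s : ℕ} (h : ∀ c ∈ newCons k t s 1, Sat x c) :
    x (nm k 0) = 1 := by
  simpa [newCons, tables, nmx, Sat] using h

theorem sat_newCons_add {x : ℕ → ℝ} {k t s : ℕ} (h : ∀ c ∈ newCons k t s 3, Sat x c) :
    x (nm k 0) = x s + x t := by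
  simpa [newCons, tables, nmx, Sat, eq_comm] using h

theorem sat_newCons_mul {x : ℕ → ℝ} {k t s : ℕ} (h : ∀ c ∈ newCons k t s 4, Sat x c) :
    x (nm k 0) = x s * x t := by
  simpa [newCons, tables, nmx, Sat, eq_comm] using h

theorem sat_newCons_and {x : ℕ → ℝ} {k t s : ℕ} (h : ∀ c ∈ newCons k t s 8, Sat x c) :
    x (nm k 0) = x s * x t := by
  simpa [newCons, tables, nmx, Sat, eq_comm] using h

theorem sat_newCons_not {x : ℕ → ℝ} {k t s : ℕ} (h : ∀ c ∈ newCons k t s 7, Sat x c) :
    x (nm k 0) = 1 - x t := by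
  have : x (nm k 1) = 1 ∧ x (nm k 0) + x t = x (nm k 1) := by
    simpa [newCons, tables, nmx, Sat] using h
  linarith [this.1, this.2]

theorem sat_newCons_or {x : ℕ → ℝ} {k t s : ℕ} (h : ∀ c ∈ newCons k t s 9, Sat x c) :
    x (nm k 0) = x s + x t - x s * x t := by
  have : x s * x t = x (nm k 1) ∧ x (nm k 0) + x (nm k 1) = x (nm k 2) ∧
      x s + x t = x (nm k 2) := by
    simpa [newCons, tables, nmx, Sat] using h
  linarith [this.1, this.2.1, this.2.2]

theorem sat_newCons_eq {x : ℕ → ℝ} {k t s : ℕ} (h : ∀ c ∈ newCons k t s 5, Sat x c) :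
    (x s = x t → x (nm k 0) = 1) ∧ (x s ≠ x t → x (nm k 0) = 0) := by
  have h' : x t + x (nm k 1) = x s ∧ x (nm k 2) = 0 ∧
      x (nm k 0) * x (nm k 1) = x (nm k 2) ∧ x (nm k 3) = 1 ∧
      x (nm k 0) + x (nm k 4) = x (nm k 3) ∧ x (nm k 1) * x (nm k 5) = x (nm k 4) := by
    simpa [newCons, tables, nmx, Sat] using h
  obtain ⟨h1, h2, h3, h4, h5, h6⟩ := h'
  rw [h2] at h3
  rw [h4] at h5
  constructor
  · intro e
    have e1 : x (nm k 1) = 0 := by linarith
    rw [e1, zero_mul] at h6
    linarith
  · intro e
    have e1 : x (nm k 1) ≠ 0 := fun h0 => e (by linarith)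
    rcases mul_eq_zero.1 h3 with h | h
    · exact h
    · exact absurd h e1

theorem sat_newCons_lt {x : ℕ → ℝ} {k t s : ℕ} (h : ∀ c ∈ newCons k t s 6, Sat x c) :
    (x s < x t → x (nm k 0) = 1) ∧ (¬ x s < x t → x (nm k 0) = 0) := by
  have h' : x s + x (nm k 1) = x t ∧ x (nm k 2) = 0 ∧ x (nm k 3) = 1 ∧
      x (nm k 0) + x (nm k 4) = x (nm k 3) ∧ x (nm k 0) * x (nm k 4) = x (nm k 2) ∧
      x (nm k 5) * x (nm k 5) = x (nm k 6) ∧ x (nm k 1) * x (nm k 6) = x (nm k 7) ∧
      x (nm k 0) * x (nm k 7) = x (nm k 0) ∧ x (nm k 1) + x (nm k 6) = x (nm k 8) ∧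
      x (nm k 4) * x (nm k 8) = x (nm k 2) := by
    simpa [newCons, tables, nmx, Sat] using h
  obtain ⟨h1, h2, h3, h4, h5, h6, h7, h8, h9, h10⟩ := h'
  rw [h2] at h5 h10
  rw [h3] at h4
  have hq : 0 ≤ x (nm k 6) := by rw [← h6]; exact mul_self_nonneg _
  have hb : x (nm k 0) = 0 ∨ x (nm k 0) = 1 := by
    rcases mul_eq_zero.1 h5 with h | h
    · exact Or.inl h
    · right; linarith
  constructor
  · intro e
    rcases hb with h | h
    · exfalso
      have : x (nm k 4) = 1 := by linarith
      rw [this, one_mul] at h10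
      linarith
    · exact h
  · intro e
    rcases hb with h | h
    · exact h
    · exfalso
      have e1 : x (nm k 7) = 1 := by
        rw [h, one_mul] at h8
        exact h8
      rw [e1] at h7
      have : x (nm k 1) ≤ 0 := by linarith
      nlinarith

theorem Term.sound {x : ℕ → ℝ} (t : Term) : ∀ k, (∀ c ∈ t.cons k, Sat x c) →
    x (t.res k) = t.eval (fun n => x (2 * n)) := by
  induction t with
  | zero => intro k h; exact sat_newCons_zero h
  | one => intro k h; exact sat_newCons_one h
  | var n => intro k _; rfl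
  | add s t ihs iht =>
    intro k h
    simp only [Term.cons, List.mem_append] at h
    have h1 := ihs k (fun c hc => h c (Or.inl hc))
    have h2 := iht _ (fun c hc => h c (Or.inr (Or.inl hc)))
    have h3 := sat_newCons_add (fun c hc => h c (Or.inr (Or.inr hc)))
    simp only [Term.res, Term.eval]
    rw [h3, h1, h2]
  | mul s t ihs iht =>
    intro k h
    simp only [Term.cons, List.mem_append] at h
    have h1 := ihs k (fun c hc => h c (Or.inl hc))
    have h2 := iht _ (fun c hc => h c (Or.inr (Or.inl hc)))
    have h3 := sat_newCons_mul (fun c hc => h c (Or.inr (Or.inr hc)))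
    simp only [Term.res, Term.eval]
    rw [h3, h1, h2]

theorem Formula.sound {x : ℕ → ℝ} (φ : Formula) : ∀ k, (∀ c ∈ φ.cons k, Sat x c) →
    (φ.Holds (fun n => x (2 * n)) → x (φ.res k) = 1) ∧
    (¬ φ.Holds (fun n => x (2 * n)) → x (φ.res k) = 0) := by
  induction φ with
  | eq s t =>
    intro k h
    simp only [Formula.cons, List.mem_append] at h
    have h1 := s.sound k (fun c hc => h c (Or.inl hc))
    have h2 := t.sound _ (fun c hc => h c (Or.inr (Or.inl hc)))
    have h3 := sat_newCons_eq (fun c hc => h c (Or.inr (Or.inr hc)))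
    simp only [Formula.res, Formula.Holds]
    rw [← h1, ← h2]
    exact h3
  | lt s t =>
    intro k h
    simp only [Formula.cons, List.mem_append] at h
    have h1 := s.sound k (fun c hc => h c (Or.inl hc))
    have h2 := t.sound _ (fun c hc => h c (Or.inr (Or.inl hc)))
    have h3 := sat_newCons_lt (fun c hc => h c (Or.inr (Or.inr hc)))
    simp only [Formula.res, Formula.Holds]
    rw [← h1, ← h2]
    exact h3
  | not φ ih =>
    intro k h
    simp only [Formula.cons, List.mem_append] at h
    have h1 := ih k (fun c hc => h c (Or.inl hc))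
    have h3 := sat_newCons_not (fun c hc => h c (Or.inr hc))
    simp only [Formula.res, Formula.Holds]
    rw [h3]
    constructor
    · intro e; rw [h1.2 e]; norm_num
    · intro e; rw [h1.1 (not_not.1 e)]; norm_num
  | and φ ψ ih ih' =>
    intro k h
    simp only [Formula.cons, List.mem_append] at h
    have h1 := ih k (fun c hc => h c (Or.inl hc))
    have h2 := ih' _ (fun c hc => h c (Or.inr (Or.inl hc)))
    have h3 := sat_newCons_and (fun c hc => h c (Or.inr (Or.inr hc)))
    simp only [Formula.res, Formula.Holds]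
    rw [h3]
    constructor
    · rintro ⟨e, e'⟩; rw [h1.1 e, h2.1 e']; norm_num
    · intro e
      by_cases e1 : φ.Holds (fun n => x (2 * n))
      · rw [h2.2 (fun e2 => e ⟨e1, e2⟩)]; norm_num
      · rw [h1.2 e1]; norm_num
  | or φ ψ ih ih' =>
    intro k h
    simp only [Formula.cons, List.mem_append] at h
    have h1 := ih k (fun c hc => h c (Or.inl hc))
    have h2 := ih' _ (fun c hc => h c (Or.inr (Or.inl hc)))
    have h3 := sat_newCons_or (fun c hc => h c (Or.inr (Or.inr hc)))
    simp only [Formula.res, Formula.Holds]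
    rw [h3]
    constructor
    · rintro (e | e)
      · rw [h1.1 e]; ring
      · rw [h2.1 e]; ring
    · intro e
      rw [h1.2 (fun e1 => e (Or.inl e1)), h2.2 (fun e1 => e (Or.inr e1))]; norm_num

end Pool.Agent.H606R2.MinRank
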