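import Pool.Agent.H606R2.MinRank.Sys

/-!
# Completeness of the translation
-/

namespace Pool.Agent.H606R2.MinRank

open Pool.Agent.NPC

/-- The variable `v` may be used by symbols at positions in `[k, k')`. -/
def InScope (k k' v : ℕ) : Prop := v % 2 = 0 ∨ (20 * k ≤ v ∧ v < 20 * k')

theorem InScope.mono {k k' l l' v : ℕ} (h : InScope k k' v) (h1 : l ≤ k) (h2 : k' ≤ l') :
    InScope l l' v := by
  rcases h with h | h
  · exact Or.inl h
  · exact Or.inr (by omega)

theorem inScope_nm {k l l' j : ℕ} (hj : j < 10) (h1 : l ≤ k) (h2 : k + 1 ≤ l') :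
    InScope l l' (nm k j) := by
  right
  unfold nm
  omega

theorem Sat.congr {x x' : ℕ → ℝ} {c : Con} (h1 : x c.2.1 = x' c.2.1)
    (h2 : x c.2.2.1 = x' c.2.2.1) (h3 : x c.2.2.2 = x' c.2.2.2) (h : Sat x c) : Sat x' c := by
  unfold Sat at h ⊢
  rw [← h1, ← h2, ← h3]
  exact h

/-- All variables of the equation are in scope. -/
def CScope (k k' : ℕ) (c : Con) : Prop :=
  InScope k k' c.2.1 ∧ InScope k k' c.2.2.1 ∧ InScope k k' c.2.2.2

theorem CScope.mono {k k' l l' : ℕ} {c : Con} (h : CScope k k' c) (h1 : l ≤ k) (h2 : k' ≤ l') :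
    CScope l l' c := ⟨h.1.mono h1 h2, h.2.1.mono h1 h2, h.2.2.mono h1 h2⟩

theorem table_lt : ∀ kind < 10, ∀ c ∈ tables.getD kind [],
    c.2.1 < 12 ∧ c.2.2.1 < 12 ∧ c.2.2.2 < 12 := by
  decide

theorem scope_nmx {k l l' top snd c : ℕ} (hc : c < 12) (h1 : l ≤ k) (h2 : k + 1 ≤ l')
    (ht : InScope l l' top) (hs : InScope l l' snd) : InScope l l' (nmx k top snd c) := by
  unfold nmx
  split_ifs with h h'
  · exact ht
  · exact hs
  · exact inScope_nm (by omega) h1 h2

theorem scope_newCons {k l l' top snd kind : ℕ} (hk : kind < 10) (h1 : l ≤ k) (h2 : k + 1 ≤ l')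
    (ht : InScope l l' top) (hs : InScope l l' snd) :
    ∀ c ∈ newCons k top snd kind, CScope l l' c := by
  intro c hc
  unfold newCons at hc
  rw [List.mem_map] at hc
  obtain ⟨d, hd, rfl⟩ := hc
  obtain ⟨e1, e2, e3⟩ := table_lt kind hk d hd
  exact ⟨scope_nmx e1 h1 h2 ht hs, scope_nmx e2 h1 h2 ht hs, scope_nmx e3 h1 h2 ht hs⟩

theorem inScope_zero (l l' : ℕ) : InScope l l' 0 := Or.inl rfl

theorem Term.scope_res (t : Term) : ∀ k, InScope k (k + t.len) (t.res k) := by
  induction t with
  | zero => intro k; exact inScope_nm (by omega) le_rfl le_rfl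
  | one => intro k; exact inScope_nm (by omega) le_rfl le_rfl
  | var n => intro k; left; simp [Term.res]
  | add s t _ _ => intro k; exact inScope_nm (by omega) (by omega) (by simp [Term.len]; omega)
  | mul s t _ _ => intro k; exact inScope_nm (by omega) (by omega) (by simp [Term.len]; omega)

theorem Formula.scope_res (φ : Formula) : ∀ k, InScope k (k + φ.len) (φ.res k) := by
  cases φ with
  | eq s t => intro k; exact inScope_nm (by omega) (by omega) (by simp [Formula.len]; omega)
  | lt s t => intro k; exact inScope_nm (by omega) (by omega) (by simp [Formula.len]; omega)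
  | not φ => intro k; exact inScope_nm (by omega) (by omega) (by simp [Formula.len])
  | and φ ψ => intro k; exact inScope_nm (by omega) (by omega) (by simp [Formula.len]; omega)
  | or φ ψ => intro k; exact inScope_nm (by omega) (by omega) (by simp [Formula.len]; omega)

theorem Term.scope_cons (t : Term) : ∀ k, ∀ c ∈ t.cons k, CScope k (k + t.len) c := by
  induction t with
  | zero =>
    intro k
    exact scope_newCons (by omega) le_rfl le_rfl (inScope_zero _ _) (inScope_zero _ _)
  | one =>
    intro k
    exact scope_newCons (by omega) le_rfl le_rfl (inScope_zero _ _) (inScope_zero _ _)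
  | var n => intro k c hc; simp [Term.cons] at hc
  | add s t ihs iht =>
    intro k c hc
    simp only [Term.cons, List.mem_append] at hc
    rcases hc with hc | hc | hc
    · exact (ihs k c hc).mono le_rfl (by simp [Term.len]; omega)
    · exact (iht _ c hc).mono (by omega) (by simp [Term.len]; omega)
    · exact scope_newCons (by omega) (by omega) (by simp [Term.len]; omega)
        ((t.scope_res _).mono (by omega) (by simp [Term.len]; omega))
        ((s.scope_res _).mono (by omega) (by simp [Term.len]; omega)) c hc
  | mul s t ihs iht =>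
    intro k c hc
    simp only [Term.cons, List.mem_append] at hc
    rcases hc with hc | hc | hc
    · exact (ihs k c hc).mono le_rfl (by simp [Term.len]; omega)
    · exact (iht _ c hc).mono (by omega) (by simp [Term.len]; omega)
    · exact scope_newCons (by omega) (by omega) (by simp [Term.len]; omega)
        ((t.scope_res _).mono (by omega) (by simp [Term.len]; omega))
        ((s.scope_res _).mono (by omega) (by simp [Term.len]; omega)) c hc

theorem Formula.scope_cons (φ : Formula) : ∀ k, ∀ c ∈ φ.cons k, CScope k (k + φ.len) c := by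
  induction φ with
  | eq s t =>
    intro k c hc
    simp only [Formula.cons, List.mem_append] at hc
    rcases hc with hc | hc | hc
    · exact (s.scope_cons k c hc).mono le_rfl (by simp [Formula.len]; omega)
    · exact (t.scope_cons _ c hc).mono (by omega) (by simp [Formula.len]; omega)
    · exact scope_newCons (by omega) (by omega) (by simp [Formula.len]; omega)
        ((t.scope_res _).mono (by omega) (by simp [Formula.len]; omega))
        ((s.scope_res _).mono (by omega) (by simp [Formula.len]; omega)) c hc
  | lt s t =>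
    intro k c hc
    simp only [Formula.cons, List.mem_append] at hc
    rcases hc with hc | hc | hc
    · exact (s.scope_cons k c hc).mono le_rfl (by simp [Formula.len]; omega)
    · exact (t.scope_cons _ c hc).mono (by omega) (by simp [Formula.len]; omega)
    · exact scope_newCons (by omega) (by omega) (by simp [Formula.len]; omega)
        ((t.scope_res _).mono (by omega) (by simp [Formula.len]; omega))
        ((s.scope_res _).mono (by omega) (by simp [Formula.len]; omega)) c hc
  | not φ ih =>
    intro k c hc
    simp only [Formula.cons, List.mem_append] at hc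
    rcases hc with hc | hc
    · exact (ih k c hc).mono le_rfl (by simp [Formula.len])
    · exact scope_newCons (by omega) (by omega) (by simp [Formula.len])
        ((φ.scope_res _).mono (by omega) (by simp [Formula.len]))
        (inScope_zero _ _) c hc
  | and φ ψ ih ih' =>
    intro k c hc
    simp only [Formula.cons, List.mem_append] at hc
    rcases hc with hc | hc | hc
    · exact (ih k c hc).mono le_rfl (by simp [Formula.len]; omega)
    · exact (ih' _ c hc).mono (by omega) (by simp [Formula.len]; omega)
    · exact scope_newCons (by omega) (by omega) (by simp [Formula.len]; omega)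
        ((ψ.scope_res _).mono (by omega) (by simp [Formula.len]; omega))
        ((φ.scope_res _).mono (by omega) (by simp [Formula.len]; omega)) c hc
  | or φ ψ ih ih' =>
    intro k c hc
    simp only [Formula.cons, List.mem_append] at hc
    rcases hc with hc | hc | hc
    · exact (ih k c hc).mono le_rfl (by simp [Formula.len]; omega)
    · exact (ih' _ c hc).mono (by omega) (by simp [Formula.len]; omega)
    · exact scope_newCons (by omega) (by omega) (by simp [Formula.len]; omega)
        ((ψ.scope_res _).mono (by omega) (by simp [Formula.len]; omega))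
        ((φ.scope_res _).mono (by omega) (by simp [Formula.len]; omega)) c hc

/-- Change the values of the auxiliary variables of position `k`. -/
noncomputable def upd (x : ℕ → ℝ) (k : ℕ) (f : ℕ → ℝ) : ℕ → ℝ := fun v =>
  if v % 2 = 1 ∧ v / 20 = k then f (v / 2 % 10) else x v

theorem upd_nm (x : ℕ → ℝ) (k : ℕ) (f : ℕ → ℝ) {j : ℕ} (hj : j < 10) :
    upd x k f (nm k j) = f j := by
  unfold upd nm
  rw [if_pos (by omega)]
  congr 1
  omega

theorem upd_of {x : ℕ → ℝ} {k : ℕ} {f : ℕ → ℝ} {v : ℕ}
    (h : v % 2 = 0 ∨ v < 20 * k ∨ 20 * (k + 1) ≤ v) : upd x k f v = x v := by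
  unfold upd
  rw [if_neg (by omega)]

theorem upd_scope {x : ℕ → ℝ} {k l : ℕ} {f : ℕ → ℝ} {v : ℕ}
    (h : InScope l k v) : upd x k f v = x v := by
  apply upd_of
  rcases h with h | h
  · exact Or.inl h
  · exact Or.inr (Or.inl h.2)

theorem exists_new {kind : ℕ} (hk : kind < 10) (x : ℕ → ℝ) {k l top snd : ℕ}
    (ht : InScope l k top) (hs : InScope l k snd) :
    ∃ f : ℕ → ℝ, ∀ c ∈ newCons k top snd kind, Sat (upd x k f) c := by
  have ht' : ∀ f, upd x k f top = x top := fun f => upd_scope ht
  have hs' : ∀ f, upd x k f snd = x snd := fun f => upd_scope hs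
  have h0 : ∀ f, upd x k f (nm k 0) = f 0 := fun f => upd_nm x k f (by omega)
  have h1 : ∀ f, upd x k f (nm k 1) = f 1 := fun f => upd_nm x k f (by omega)
  have h2 : ∀ f, upd x k f (nm k 2) = f 2 := fun f => upd_nm x k f (by omega)
  have h3 : ∀ f, upd x k f (nm k 3) = f 3 := fun f => upd_nm x k f (by omega)
  have h4 : ∀ f, upd x k f (nm k 4) = f 4 := fun f => upd_nm x k f (by omega)
  have h5 : ∀ f, upd x k f (nm k 5) = f 5 := fun f => upd_nm x k f (by omega)
  have h6 : ∀ f, upd x k f (nm k 6) = f 6 := fun f => upd_nm x k f (by omega)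
  have h7 : ∀ f, upd x k f (nm k 7) = f 7 := fun f => upd_nm x k f (by omega)
  have h8 : ∀ f, upd x k f (nm k 8) = f 8 := fun f => upd_nm x k f (by omega)
  interval_cases kind
  · refine ⟨fun _ => 0, ?_⟩
    simp [newCons, tables, nmx, Sat, h0]
  · refine ⟨fun _ => 1, ?_⟩
    simp [newCons, tables, nmx, Sat, h0]
  · refine ⟨fun _ => 1, ?_⟩
    simp [newCons, tables]
  · refine ⟨fun _ => x snd + x top, ?_⟩
    simp [newCons, tables, nmx, Sat, h0, ht', hs']
  · refine ⟨fun _ => x snd * x top, ?_⟩
    simp [newCons, tables, nmx, Sat, h0, ht', hs']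
  · by_cases hd : x snd - x top = 0
    · refine ⟨fun j => if j = 0 then 1 else if j = 3 then 1 else 0, ?_⟩
      simp [newCons, tables, nmx, Sat, h0, h1, h2, h3, h4, h5, ht', hs']
      linarith
    · refine ⟨fun j => if j = 1 then x snd - x top else if j = 3 then 1 else if j = 4 then 1
        else if j = 5 then (x snd - x top)⁻¹ else 0, ?_⟩
      simp [newCons, tables, nmx, Sat, h0, h1, h2, h3, h4, h5, ht', hs']
      exact mul_inv_cancel₀ hd
  · by_cases hd : 0 < x top - x snd
    · refine ⟨fun j => if j = 0 then 1 else if j = 1 then x top - x snd else if j = 3 then 1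
        else if j = 5 then (Real.sqrt (x top - x snd))⁻¹ else if j = 6 then (x top - x snd)⁻¹
        else if j = 7 then 1 else if j = 8 then x top - x snd + (x top - x snd)⁻¹ else 0, ?_⟩
      simp [newCons, tables, nmx, Sat, h0, h1, h2, h3, h4, h5, h6, h7, h8, ht', hs']
      constructor
      · rw [← mul_inv, Real.mul_self_sqrt hd.le]
      · exact mul_inv_cancel₀ hd.ne'
    · refine ⟨fun j => if j = 1 then x top - x snd else if j = 3 then 1
        else if j = 4 then 1 else if j = 5 then Real.sqrt (-(x top - x snd))
        else if j = 6 then -(x top - x snd)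
        else if j = 7 then (x top - x snd) * -(x top - x snd) else 0, ?_⟩
      simp [newCons, tables, nmx, Sat, h0, h1, h2, h3, h4, h5, h6, h7, h8, ht', hs']
      exact Real.mul_self_sqrt (by linarith)
  · refine ⟨fun j => if j = 0 then 1 - x top else 1, ?_⟩
    simp [newCons, tables, nmx, Sat, h0, h1, ht']
  · refine ⟨fun _ => x snd * x top, ?_⟩
    simp [newCons, tables, nmx, Sat, h0, ht', hs']
  · refine ⟨fun j => if j = 0 then x snd + x top - x snd * x top else if j = 1 then
      x snd * x top else x snd + x top, ?_⟩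
    simp [newCons, tables, nmx, Sat, h0, h1, h2, ht', hs']

/-- Combine solutions for two parts and for a new symbol. -/
theorem combine {A B : List Con} {k k1 k2 top snd kind : ℕ} (hkind : kind < 10)
    (hk : k ≤ k1) (hk' : k1 ≤ k2)
    (hA : ∀ c ∈ A, CScope k k1 c) (hB : ∀ c ∈ B, CScope k1 k2 c)
    (ht : InScope k k2 top) (hs : InScope k k2 snd) {x0 : ℕ → ℝ}
    (h1 : ∃ x, (∀ v, (v % 2 = 0 ∨ v < 20 * k ∨ 20 * k1 ≤ v) → x v = x0 v) ∧ ∀ c ∈ A, Sat x c)
    (h2 : ∀ x1 : ℕ → ℝ, ∃ x, (∀ v, (v % 2 = 0 ∨ v < 20 * k1 ∨ 20 * k2 ≤ v) → x v = x1 v) ∧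
      ∀ c ∈ B, Sat x c) :
    ∃ x, (∀ v, (v % 2 = 0 ∨ v < 20 * k ∨ 20 * (k2 + 1) ≤ v) → x v = x0 v) ∧
      ∀ c ∈ A ++ (B ++ newCons k2 top snd kind), Sat x c := by
  obtain ⟨x1, e1, s1⟩ := h1
  obtain ⟨x2, e2, s2⟩ := h2 x1
  obtain ⟨f, hf⟩ := exists_new hkind x2 ht hs
  refine ⟨upd x2 k2 f, ?_, ?_⟩
  · intro v hv
    rw [upd_of (by omega), e2 v (by omega), e1 v (by omega)]
  · intro c hc
    simp only [List.mem_append] at hc
    rcases hc with hc | hc | hc
    · have key : ∀ v, InScope k k1 v → x1 v = upd x2 k2 f v := by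
        intro v hv
        rw [upd_scope (hv.mono le_rfl hk')]
        rcases hv with hv | hv
        · exact (e2 v (Or.inl hv)).symm
        · exact (e2 v (Or.inr (Or.inl hv.2))).symm
      obtain ⟨g1, g2, g3⟩ := hA c hc
      exact (s1 c hc).congr (key _ g1) (key _ g2) (key _ g3)
    · have key : ∀ v, InScope k1 k2 v → x2 v = upd x2 k2 f v := by
        intro v hv
        rw [upd_scope hv]
      obtain ⟨g1, g2, g3⟩ := hB c hc
      exact (s2 c hc).congr (key _ g1) (key _ g2) (key _ g3)
    · exact hf c hc

theorem empty_part {k k2 : ℕ} (x1 : ℕ → ℝ) :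
    ∃ x : ℕ → ℝ, (∀ v, (v % 2 = 0 ∨ v < 20 * k ∨ 20 * k2 ≤ v) → x v = x1 v) ∧
      ∀ c ∈ ([] : List Con), Sat x c :=
  ⟨x1, fun _ _ => rfl, by simp⟩

theorem Term.complete (t : Term) : ∀ (k : ℕ) (x0 : ℕ → ℝ), ∃ x : ℕ → ℝ,
    (∀ v, (v % 2 = 0 ∨ v < 20 * k ∨ 20 * (k + t.len) ≤ v) → x v = x0 v) ∧
      ∀ c ∈ t.cons k, Sat x c := by
  induction t with
  | zero =>
    intro k x0
    have := combine (A := []) (B := []) (k := k) (k1 := k) (k2 := k) (top := 0) (snd := 0)
      (kind := 0) (by omega) le_rfl le_rfl (by simp) (by simp) (inScope_zero _ _)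
      (inScope_zero _ _) (empty_part x0) (fun x1 => empty_part x1)
    simpa [Term.len, Term.cons] using this
  | one =>
    intro k x0
    have := combine (A := []) (B := []) (k := k) (k1 := k) (k2 := k) (top := 0) (snd := 0)
      (kind := 1) (by omega) le_rfl le_rfl (by simp) (by simp) (inScope_zero _ _)
      (inScope_zero _ _) (empty_part x0) (fun x1 => empty_part x1)
    simpa [Term.len, Term.cons] using this
  | var n => intro k x0; exact ⟨x0, fun _ _ => rfl, by simp [Term.cons]⟩
  | add s t ihs iht =>
    intro k x0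
    have := combine (A := s.cons k) (B := t.cons (k + s.len)) (k := k) (k1 := k + s.len)
      (k2 := k + s.len + t.len) (top := t.res (k + s.len)) (snd := s.res k)
      (kind := 3) (by omega) (by omega) (by omega) (s.scope_cons k) (t.scope_cons _)
      ((t.scope_res _).mono (by omega) (by omega)) ((s.scope_res _).mono (by omega) (by omega))
      (ihs k x0) (fun x1 => iht _ x1)
    have e : k + (Term.add s t).len = k + s.len + t.len + 1 := by simp [Term.len]; omega
    rw [e]
    exact this
  | mul s t ihs iht =>
    intro k x0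
    have := combine (A := s.cons k) (B := t.cons (k + s.len)) (k := k) (k1 := k + s.len)
      (k2 := k + s.len + t.len) (top := t.res (k + s.len)) (snd := s.res k)
      (kind := 4) (by omega) (by omega) (by omega) (s.scope_cons k) (t.scope_cons _)
      ((t.scope_res _).mono (by omega) (by omega)) ((s.scope_res _).mono (by omega) (by omega))
      (ihs k x0) (fun x1 => iht _ x1)
    have e : k + (Term.mul s t).len = k + s.len + t.len + 1 := by simp [Term.len]; omega
    rw [e]
    exact this

theorem Formula.complete (φ : Formula) : ∀ (k : ℕ) (x0 : ℕ → ℝ), ∃ x : ℕ → ℝ,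
    (∀ v, (v % 2 = 0 ∨ v < 20 * k ∨ 20 * (k + φ.len) ≤ v) → x v = x0 v) ∧
      ∀ c ∈ φ.cons k, Sat x c := by
  induction φ with
  | eq s t =>
    intro k x0
    have := combine (A := s.cons k) (B := t.cons (k + s.len)) (k := k) (k1 := k + s.len)
      (k2 := k + s.len + t.len) (top := t.res (k + s.len)) (snd := s.res k)
      (kind := 5) (by omega) (by omega) (by omega) (s.scope_cons k) (t.scope_cons _)
      ((t.scope_res _).mono (by omega) (by omega)) ((s.scope_res _).mono (by omega) (by omega))
      (s.complete k x0) (fun x1 => t.complete _ x1)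
    have e : k + (Formula.eq s t).len = k + s.len + t.len + 1 := by simp [Formula.len]; omega
    rw [e]
    exact this
  | lt s t =>
    intro k x0
    have := combine (A := s.cons k) (B := t.cons (k + s.len)) (k := k) (k1 := k + s.len)
      (k2 := k + s.len + t.len) (top := t.res (k + s.len)) (snd := s.res k)
      (kind := 6) (by omega) (by omega) (by omega) (s.scope_cons k) (t.scope_cons _)
      ((t.scope_res _).mono (by omega) (by omega)) ((s.scope_res _).mono (by omega) (by omega))
      (s.complete k x0) (fun x1 => t.complete _ x1)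
    have e : k + (Formula.lt s t).len = k + s.len + t.len + 1 := by simp [Formula.len]; omega
    rw [e]
    exact this
  | not φ ih =>
    intro k x0
    have := combine (A := φ.cons k) (B := []) (k := k) (k1 := k + φ.len)
      (k2 := k + φ.len) (top := φ.res k) (snd := 0)
      (kind := 7) (by omega) (by omega) (by omega) (φ.scope_cons k) (by simp)
      ((φ.scope_res _).mono (by omega) (by omega)) (inScope_zero _ _)
      (ih k x0) (fun x1 => empty_part x1)
    have e : k + (Formula.not φ).len = k + φ.len + 1 := by simp [Formula.len]; omega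
    rw [e]
    exact this
  | and φ ψ ih ih' =>
    intro k x0
    have := combine (A := φ.cons k) (B := ψ.cons (k + φ.len)) (k := k) (k1 := k + φ.len)
      (k2 := k + φ.len + ψ.len) (top := ψ.res (k + φ.len)) (snd := φ.res k)
      (kind := 8) (by omega) (by omega) (by omega) (φ.scope_cons k) (ψ.scope_cons _)
      ((ψ.scope_res _).mono (by omega) (by omega)) ((φ.scope_res _).mono (by omega) (by omega))
      (ih k x0) (fun x1 => ih' _ x1)
    have e : k + (Formula.and φ ψ).len = k + φ.len + ψ.len + 1 := by simp [Formula.len]; omega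
    rw [e]
    exact this
  | or φ ψ ih ih' =>
    intro k x0
    have := combine (A := φ.cons k) (B := ψ.cons (k + φ.len)) (k := k) (k1 := k + φ.len)
      (k2 := k + φ.len + ψ.len) (top := ψ.res (k + φ.len)) (snd := φ.res k)
      (kind := 9) (by omega) (by omega) (by omega) (φ.scope_cons k) (ψ.scope_cons _)
      ((ψ.scope_res _).mono (by omega) (by omega)) ((φ.scope_res _).mono (by omega) (by omega))
      (ih k x0) (fun x1 => ih' _ x1)
    have e : k + (Formula.or φ ψ).len = k + φ.len + ψ.len + 1 := by simp [Formula.len]; omega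
    rw [e]
    exact this

/-- The system of a sentence is solvable iff the sentence is true. -/
theorem sysOf_iff (φ : Formula) : ETR φ ↔ ∃ x : ℕ → ℝ, ∀ c ∈ sysOf φ.code, Sat x c := by
  rw [sysOf_code]
  constructor
  · rintro ⟨y, hy⟩
    obtain ⟨x, hx, hs⟩ := φ.complete 0 (fun v => y (v / 2))
    refine ⟨x, fun c hc => ?_⟩
    rw [List.mem_append] at hc
    rcases hc with hc | hc
    · exact hs c hc
    · rw [List.mem_singleton] at hc
      subst hc
      have e : (fun n => x (2 * n)) = y := by
        funext n
        rw [hx _ (by omega)]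
        congr 1
        omega
      have := (φ.sound 0 hs).1 (by rw [e]; exact hy)
      simp [Sat, this]
  · rintro ⟨x, hx⟩
    refine ⟨fun n => x (2 * n), ?_⟩
    by_contra hn
    have h1 := (φ.sound 0 (fun c hc => hx c (List.mem_append_left _ hc))).2 hn
    have h2 := hx (2, φ.res 0, 0, 0) (List.mem_append_right _ (List.mem_singleton.2 rfl))
    simp [Sat, h1] at h2

end Pool.Agent.H606R2.MinRank
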